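import Pool.Agent.Q151.FP.Code

/-!
# A good cover code with two codewords that are not joined by a feasible walk

There are nine closed sets in `ℝ^28` all of whose nonempty intersections are contractible; their code has the
29 codewords `∅` and `Q151.FP.cw k`, `k < 28`. The codewords `{0, 1, 2, 6, 8}` and `{3, 4, 5, 8}` are not joined
by a feasible walk in the codeword containment graph.
-/

set_option autoImplicit false

namespace Pool.Agent.Results.MP_ecf9a6_co.NoFeasiblePath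

/-- the atom of `σ`: the points which lie in `U i` exactly for `i ∈ σ` -/
def atom {n d : ℕ} (U : Fin n → Set (Fin d → ℝ)) (σ : Finset (Fin n)) : Set (Fin d → ℝ) :=
  {x | (∀ i ∈ σ, x ∈ U i) ∧ ∀ i ∉ σ, x ∉ U i}

/-- the code of a collection of subsets of `ℝ^d` -/
def code {n d : ℕ} (U : Fin n → Set (Fin d → ℝ)) : Set (Finset (Fin n)) :=
  {σ | (atom U σ).Nonempty}

/-- good covers: all sets open or all sets closed, every intersection empty or contractible -/
structure IsGoodCover {n d : ℕ} (U : Fin n → Set (Fin d → ℝ)) : Prop where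
  open_or_closed : (∀ i, IsOpen (U i)) ∨ ∀ i, IsClosed (U i)
  inter : ∀ σ : Finset (Fin n), σ.Nonempty →
    (⋂ i ∈ σ, U i) = ∅ ∨ ContractibleSpace ↥(⋂ i ∈ σ, U i)

/-- good cover codes -/
def IsGoodCoverCode {n : ℕ} (C : Set (Finset (Fin n))) : Prop :=
  ∃ (d : ℕ) (U : Fin n → Set (Fin d → ℝ)), IsGoodCover U ∧ code U = C

/-- `v 0, …, v k` is a feasible walk from `σ` to `τ` in the codeword containment graph of `C` -/
structure IsFeasibleWalk {n : ℕ} (C : Set (Finset (Fin n))) (k : ℕ) (v : ℕ → Finset (Fin n))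
    (σ τ : Finset (Fin n)) : Prop where
  start : v 0 = σ
  stop : v k = τ
  mem : ∀ i ≤ k, v i ∈ C
  adj : ∀ i < k, v i ⊂ v (i + 1) ∨ v (i + 1) ⊂ v i
  feasible : ∀ i m j, i < m → m < j → j ≤ k → v i ∩ v j ⊆ v m

/-- There are a good cover code `C` and codewords `σ ≠ τ` of `C` such that no feasible walk in the
containment graph of `C` leads from `σ` to `τ`. -/
theorem result : ∃ (n : ℕ) (C : Set (Finset (Fin n))), IsGoodCoverCode C ∧
    ∃ σ ∈ C, ∃ τ ∈ C, σ ≠ τ ∧ ∀ (k : ℕ) (v : ℕ → Finset (Fin n)), ¬ IsFeasibleWalk C k v σ τ := by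
  have hcode : code Q151.FP.U = {σ | σ = ∅ ∨ ∃ k, σ = Q151.FP.cw k} := by
    ext σ
    constructor
    · rintro ⟨x, hx1, hx2⟩
      rcases Q151.FP.atom_eq x with h | ⟨k, hk⟩
      · left
        by_contra hne
        obtain ⟨i, hi⟩ := Finset.nonempty_iff_ne_empty.2 hne
        exact h i (hx1 i hi)
      · right
        refine ⟨k, Finset.ext fun i => ?_⟩
        rw [Q151.FP.mem_cw, ← hk i]
        exact ⟨fun hi => hx1 i hi, fun hi => by_contra fun hn => hx2 i hn hi⟩
    · rintro (rfl | ⟨k, rfl⟩)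
      · exact ⟨0, fun i hi => by simp at hi, fun i _ => Q151.FP.zero_atom i⟩
      · refine ⟨Pi.single k 1, fun i hi => ?_, fun i hi => ?_⟩
        · exact (Q151.FP.single_atom k i).2 ((Q151.FP.mem_cw k i).1 hi)
        · exact fun h => hi ((Q151.FP.mem_cw k i).2 ((Q151.FP.single_atom k i).1 h))
  refine ⟨9, {σ | σ = ∅ ∨ ∃ k, σ = Q151.FP.cw k}, ⟨28, Q151.FP.U, ⟨Or.inr Q151.FP.U_closed, ?_⟩,
    hcode⟩, Q151.FP.cw 20, Or.inr ⟨20, rfl⟩, Q151.FP.cw 11, Or.inr ⟨11, rfl⟩, ?_, ?_⟩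
  · intro σ hσ
    obtain ⟨P, hP, h⟩ := Q151.FP.inter_eq σ hσ
    rw [h]
    exact Q151.FP.contr P hP
  · decide +kernel
  · rintro k v ⟨h0, h1, h2, h3, h4⟩
    exact Q151.FP.no_walk k v h0 h1 h2 (fun i hi => (h3 i hi).imp (fun h => h.subset)
      (fun h => h.subset)) h4

end Pool.Agent.Results.MP_ecf9a6_co.NoFeasiblePath
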